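import Pool.Agent.H71.EG.GMap
import Pool.Agent.H71.ES.CCrvDeg
import Pool.Agent.H71.ES.CInj

/-! # EG.GCrv : the curve with undetermined coefficients: naturality, degrees, injectivity -/

namespace H71.EG

open Polynomial H68.BB H71.ES

/-- the unknowns -/
abbrev GU (r n k : ℕ) : Type := Fin r ⊕ Fin (2 * n) ⊕ Fin (3 * n) ⊕ (Fin (6 * n) × UT k)

variable {K : Type} [Field K] {r : ℕ} {R S : Type} [CommRing R] [CommRing S] [Algebra K R] [Algebra K S]

/-- the unknowns without those of the base, as unknowns of `crv` -/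
private def zz {k n : ℕ} (z : GU r n k → R) : UU n k → R := fun i => Sum.elim (fun _ => 0) (fun j => z (.inr j)) i

/-- except for `lam` and `q` the curves `gcrv` and `crv` agree -/
private theorem gcrv_md {n k : ℕ} (m0 : GM r K) (z : GU r n k → R) :
    (gcrv n k m0 z).x = (crv n k m0.md (zz z)).x ∧ (gcrv n k m0 z).y = (crv n k m0.md (zz z)).y ∧
    (gcrv n k m0 z).s = (crv n k m0.md (zz z)).s ∧ (gcrv n k m0 z).t = (crv n k m0.md (zz z)).t ∧
    (gcrv n k m0 z).u = (crv n k m0.md (zz z)).u ∧ (gcrv n k m0 z).v = (crv n k m0.md (zz z)).v := by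
  exact ⟨rfl, rfl, rfl, rfl, rfl, rfl⟩

theorem gcrv_pal {n k : ℕ} {m0 : GM r K} (hp : Pal k m0.md) (z : GU r n k → R) : Pal k (gcrv n k m0 z).md := by
  have h := crv_pal hp (zz z)
  exact ⟨h.dt, h.du, h.dv, h.ds, h.pt, h.pu, h.pv, h.ps⟩

theorem gcrv_nat {n k : ℕ} (m0 : GM r K) (z : GU r n k → R) (f : R →ₐ[K] S) :
    (gcrv n k m0 z).map (mapRingHom (f : R →+* S)) = gcrv n k m0 (fun i => f (z i)) := by
  have h := crv_nat m0.md (zz z) f
  have hz : (fun i => f (zz z i)) = zz (fun i => f (z i)) := by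
    funext i
    rcases i with i | i
    · exact map_zero f
    · rfl
  rw [hz] at h
  have e2 := congrArg Mdl.x h
  have e3 := congrArg Mdl.y h
  have e4 := congrArg Mdl.s h
  have e5 := congrArg Mdl.t h
  have e6 := congrArg Mdl.u h
  have e7 := congrArg Mdl.v h
  refine GM.ext ?_ e2 e3 e4 e5 e6 e7
  funext i
  show mapRingHom (f : R →+* S) (algebraMap K R[X] (m0.lam i) + C (z (.inl i)) * X) =
    algebraMap K S[X] (m0.lam i) + C (f (z (.inl i))) * X
  have h1 : algebraMap K R[X] (m0.lam i) = C (algebraMap K R (m0.lam i)) := rfl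
  have h2 : algebraMap K S[X] (m0.lam i) = C (algebraMap K S (m0.lam i)) := rfl
  rw [h1, h2, map_add, map_mul, coe_mapRingHom, map_C, map_C, map_X]
  simp

theorem geqn_nat {D : ND K r} {n k : ℕ} (m0 : GM r K) (z : GU r n k → R) (f : R →ₐ[K] S) (e : EE n k) :
    geqn D n k (gcrv n k m0 (fun i => f (z i))) e = f (geqn D n k (gcrv n k m0 z) e) := by
  have hf : (mapRingHom (f : R →+* S)) = ((mapAlgHom f : R[X] →ₐ[K] S[X]) : R[X] →+* S[X]) := rfl
  rw [← gcrv_nat, hf]
  set c := gcrv n k m0 z with hc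
  rcases e with ⟨m, j⟩ | j | j
  · have h1 : geqn D n k (c.map ((mapAlgHom f : R[X] →ₐ[K] S[X]) : R[X] →+* S[X])) (.inl (m, j)) =
        ((dfD D (c.map ((mapAlgHom f : R[X] →ₐ[K] S[X]) : R[X] →+* S[X]))).coeff m).coeff (j + 1) := rfl
    have h2 : geqn D n k c (.inl (m, j)) = ((dfD D c).coeff m).coeff (j + 1) := rfl
    rw [h1, h2, dfD_map, coeff_map]
    have h3 : ((mapAlgHom f : R[X] →ₐ[K] S[X]) : R[X] →+* S[X]) ((dfD D c).coeff m) = ((dfD D c).coeff m).map (f : R →+* S) := rfl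
    rw [h3, coeff_map]
    rfl
  · have h1 : geqn D n k (c.map ((mapAlgHom f : R[X] →ₐ[K] S[X]) : R[X] →+* S[X])) (.inr (.inl j)) =
        (dfT D k (c.map ((mapAlgHom f : R[X] →ₐ[K] S[X]) : R[X] →+* S[X]))).coeff (j + 1) := rfl
    have h2 : geqn D n k c (.inr (.inl j)) = (dfT D k c).coeff (j + 1) := rfl
    rw [h1, h2, dfT_map]
    have h3 : (mapAlgHom f : R[X] →ₐ[K] S[X]) (dfT D k c) = (dfT D k c).map (f : R →+* S) := rfl
    rw [h3, coeff_map]
    rfl
  · have h1 : geqn D n k (c.map ((mapAlgHom f : R[X] →ₐ[K] S[X]) : R[X] →+* S[X])) (.inr (.inr j)) =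
        (dfY D (c.map ((mapAlgHom f : R[X] →ₐ[K] S[X]) : R[X] →+* S[X]))).coeff (j + 1) := rfl
    have h2 : geqn D n k c (.inr (.inr j)) = (dfY D c).coeff (j + 1) := rfl
    rw [h1, h2, dfY_map]
    have h3 : (mapAlgHom f : R[X] →ₐ[K] S[X]) (dfY D c) = (dfY D c).map (f : R →+* S) := rfl
    rw [h3, coeff_map]
    rfl

theorem gcrv_at0 {n k : ℕ} (m0 : GM r K) (z : GU r n k → R) :
    (gcrv n k m0 z).map (evalRingHom 0) = m0.map (algebraMap K R) := by
  have h := crv_at0 m0.md (zz z)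
  have e2 := congrArg Mdl.x h
  have e3 := congrArg Mdl.y h
  have e4 := congrArg Mdl.s h
  have e5 := congrArg Mdl.t h
  have e6 := congrArg Mdl.u h
  have e7 := congrArg Mdl.v h
  refine GM.ext ?_ e2 e3 e4 e5 e6 e7
  funext i
  show evalRingHom 0 (algebraMap K R[X] (m0.lam i) + C (z (.inl i)) * X) = algebraMap K R (m0.lam i)
  have h1 : algebraMap K R[X] (m0.lam i) = C (algebraMap K R (m0.lam i)) := rfl
  rw [h1]
  simp

theorem gcrv_lam_deg {n k : ℕ} (m0 : GM r K) (z : GU r n k → R) (i : Fin r) :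
    ((gcrv n k m0 z).lam i).natDegree ≤ 1 := by
  show (algebraMap K R[X] (m0.lam i) + C (z (.inl i)) * X).natDegree ≤ 1
  have h1 : algebraMap K R[X] (m0.lam i) = C (algebraMap K R (m0.lam i)) := rfl
  rw [h1]
  refine natDegree_add_le_of_degree_le ?_ ?_
  · rw [natDegree_C]
    exact Nat.zero_le _
  · exact (natDegree_C_mul_le _ _).trans natDegree_X_le

theorem gcrv_y_deg {n k : ℕ} (m0 : GM r K) (z : GU r n k → R) : (gcrv n k m0 z).y.natDegree ≤ 3 * n :=
  crv_y_tdeg m0.md (zz z)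

/-- the degree of a polynomial in elements of degree at most one -/
theorem aeval_natDegree_le {l : Fin r → R[X]} (hl : ∀ i, (l i).natDegree ≤ 1) (p : MvPolynomial (Fin r) K) {d : ℕ}
    (hp : p.totalDegree ≤ d) : (MvPolynomial.aeval l p).natDegree ≤ d := by
  rw [MvPolynomial.aeval_def, MvPolynomial.eval₂_eq]
  refine natDegree_sum_le_of_forall_le _ _ fun m hm => ?_
  have h1 : algebraMap K R[X] (p.coeff m) = C (algebraMap K R (p.coeff m)) := rfl
  rw [h1]
  refine (natDegree_C_mul_le _ _).trans ((natDegree_prod_le _ _).trans ?_)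
  have h2 : ∑ i ∈ m.support, (l i ^ m i).natDegree ≤ ∑ i ∈ m.support, m i := by
    refine Finset.sum_le_sum fun i _ => ?_
    refine (natDegree_pow_le).trans ?_
    calc m i * (l i).natDegree ≤ m i * 1 := Nat.mul_le_mul_left _ (hl i)
      _ = m i := mul_one _
  refine h2.trans (le_trans ?_ hp)
  exact MvPolynomial.le_totalDegree hm

theorem vN_tdeg {D : ND K r} {n k : ℕ} (hD : D.Ok n k) {l : Fin r → R[X]} (hl : ∀ i, (l i).natDegree ≤ 1) :
    TD (12 * n) (D.vN l) := by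
  intro i
  unfold ND.vN
  rw [coeff_map]
  exact aeval_natDegree_le hl _ (hD.dN i)

private theorem gd_sub {d : ℕ} {p q : R[X]} (hp : p.natDegree ≤ d) (hq : q.natDegree ≤ d) :
    (p - q).natDegree ≤ d :=
  (natDegree_sub_le _ _).trans (max_le hp hq)

private theorem gd_nat {d : ℕ} (m : ℕ) {p : R[X]} (hp : p.natDegree ≤ d) :
    ((m : R[X]) * p).natDegree ≤ d := by
  have h1 : (m : R[X]) = C (m : R) := (map_natCast C m).symm
  rw [h1]
  exact (natDegree_C_mul_le _ _).trans hp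

theorem dfD_tdeg {D : ND K r} {n k : ℕ} (hD : D.Ok n k) (m0 : GM r K) (z : GU r n k → R) :
    TD (12 * n) (dfD D (gcrv n k m0 z)) := by
  obtain ⟨ht, hu, hv, hs⟩ := crv_T_tdeg m0.md (zz z)
  have h1 : TD (12 * n) ((crv n k m0.md (zz z)).t ^ 2) := by
    rw [sq]
    exact (TD.mul ht ht).mono (by omega)
  have h2 : TD (12 * n) ((crv n k m0.md (zz z)).u * (crv n k m0.md (zz z)).v) := (TD.mul hu hv).mono (by omega)
  have h3 : TD (12 * n) (X * (crv n k m0.md (zz z)).s ^ 2) := by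
    rw [sq]
    exact TD.X_mul ((TD.mul hs hs).mono (by omega))
  exact TD.sub (TD.sub (TD.add h1 h2) h3) (vN_tdeg hD (gcrv_lam_deg m0 z))

theorem dfT_tdeg {D : ND K r} {n k : ℕ} (hD : D.Ok n k) (m0 : GM r K) (z : GU r n k → R) :
    (dfT D k (gcrv n k m0 z)).natDegree ≤ 6 * n := by
  obtain ⟨ht, -, -, -⟩ := crv_T_tdeg m0.md (zz z)
  unfold dfT
  refine gd_sub ?_ ?_
  · rw [eval_eq_sum_range]
    refine natDegree_sum_le_of_forall_le _ _ fun i _ => ?_
    have h1 : ((-1 : R[X]) ^ i) = C ((-1) ^ i) := by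
      rw [C_pow, C_neg, C_1]
    rw [h1, mul_comm]
    exact (natDegree_C_mul_le _ _).trans (ht i)
  · have h1 : ((2 : R[X]) ^ k) = ((2 ^ k : ℕ) : R[X]) := by push_cast; ring
    rw [h1]
    exact gd_nat _ (aeval_natDegree_le (gcrv_lam_deg m0 z) _ hD.dB)

theorem dfY_tdeg {D : ND K r} {n k : ℕ} (hD : D.Ok n k) (m0 : GM r K) (z : GU r n k → R) :
    (dfY D (gcrv n k m0 z)).natDegree ≤ 6 * n := by
  obtain ⟨ht, -, -, -⟩ := crv_T_tdeg m0.md (zz z)
  have hx : (gcrv n k m0 z).x.natDegree ≤ 2 * n := crv_x_tdeg m0.md (zz z)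
  have hy : (gcrv n k m0 z).y.natDegree ≤ 3 * n := crv_y_tdeg m0.md (zz z)
  have hA : (D.vA (gcrv n k m0 z).lam).natDegree ≤ 4 * n := aeval_natDegree_le (gcrv_lam_deg m0 z) _ hD.dA
  unfold dfY GM.rhs
  refine gd_sub ?_ (gd_sub (gd_sub ?_ ?_) ?_)
  · refine (natDegree_pow_le).trans ?_
    calc 2 * (gcrv n k m0 z).y.natDegree ≤ 2 * (3 * n) := Nat.mul_le_mul_left _ hy
      _ ≤ 6 * n := by omega
  · refine (natDegree_pow_le).trans ?_
    calc 3 * (gcrv n k m0 z).x.natDegree ≤ 3 * (2 * n) := Nat.mul_le_mul_left _ hx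
      _ ≤ 6 * n := by omega
  · rw [mul_assoc]
    refine gd_nat 3 ?_
    refine natDegree_mul_le.trans ?_
    omega
  · exact gd_nat 2 (ht 0)

section
variable [CharZero K]

theorem gcrv_inj {n k : ℕ} (m0 : GM r K) (z : GU r n k → K) (h : gcrv n k m0 z = m0.const) : z = 0 := by
  have hc : crv n k m0.md (zz z) = m0.md.const := by
    have e2 := congrArg GM.x h
    have e3 := congrArg GM.y h
    have e4 := congrArg GM.s h
    have e5 := congrArg GM.t h
    have e6 := congrArg GM.u h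
    have e7 := congrArg GM.v h
    refine Mdl.ext ?_ e2 e3 e4 e5 e6 e7
    show m0.md.q.map (algebraMap K K[X]) + ∑ i : Fin k, C (C (zz z (.inl i)) * X) * X ^ (i : ℕ) =
      m0.md.q.map (algebraMap K K[X])
    have h0 : ∀ i : Fin k, zz z (.inl i) = 0 := fun i => rfl
    simp [h0]
  have hz := crv_inj m0.md (zz z) hc
  funext i
  rcases i with i | i
  · have e1 := congrFun (congrArg GM.lam h) i
    have h1 : algebraMap K K[X] (m0.lam i) + C (z (.inl i)) * X = algebraMap K K[X] (m0.lam i) := e1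
    rw [add_eq_left] at h1
    have h2 := congrArg (fun p : K[X] => p.coeff 1) h1
    simp only [coeff_C_mul, coeff_X_one, mul_one, coeff_zero] at h2
    exact h2
  · exact congrFun hz (.inr i)

end

end H71.EG
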