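import Pool.Agent.H71.EG.GSol
import Pool.Agent.H71.EG.GPen

/-! # EG.GCurve : the curve theorem with abstract norm data -/

namespace H71.EG

open Polynomial H68.BB H71.ES

variable {K : Type} [Field K] [CharZero K] {r : ℕ}

omit [CharZero K] in
private theorem ce_const {p : K[X]} (h : p.natDegree = 0) : p = C (p.eval 0) := by
  have h1 := eq_C_of_natDegree_eq_zero h
  rw [coeff_zero_eq_eval_zero] at h1
  exact h1

private theorem ce_poly {p : K[X][X]} {q : K[X]} (h : ∀ i, (p.coeff i).natDegree = 0)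
    (h0 : p.map (evalRingHom 0) = q) : p = q.map (algebraMap K K[X]) := by
  ext1 i
  rw [coeff_map, ← h0, coeff_map, coe_evalRingHom]
  exact ce_const (h i)

private theorem ce_y {y : K[X]} {y0 γ : K} {N : ℕ} (hy0 : y0 ≠ 0) (h0 : y.eval 0 = y0)
    (h : C (y0 ^ 2) = y ^ 2 + C γ * X ^ N) : y = C y0 := by
  have h1 : (C y0 - y) * (C y0 + y) = C γ * X ^ N := by
    have h2 : (C y0 - y) * (C y0 + y) = C (y0 ^ 2) - y ^ 2 := by
      rw [C_pow]
      ring
    rw [h2, h]
    ring
  by_cases hγ : γ = 0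
  · rw [hγ, C_0, zero_mul, mul_eq_zero] at h1
    rcases h1 with h1 | h1
    · exact (sub_eq_zero.mp h1).symm
    · exfalso
      have h2 := congrArg (eval 0) h1
      rw [eval_add, eval_C, h0, eval_zero] at h2
      have h3 : (2 : K) * y0 = 0 := by rw [two_mul]; exact h2
      rcases mul_eq_zero.mp h3 with h4 | h4
      · exact two_ne_zero h4
      · exact hy0 h4
  · have h2 : (C y0 + y) ∣ X ^ N := by
      have h3 : (X : K[X]) ^ N = C γ⁻¹ * ((C y0 - y) * (C y0 + y)) := by
        rw [h1, ← mul_assoc, ← C_mul, inv_mul_cancel₀ hγ, C_1, one_mul]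
      rw [h3]
      exact ⟨C γ⁻¹ * (C y0 - y), by ring⟩
    obtain ⟨i, -, hi⟩ := (dvd_prime_pow prime_X N).1 h2
    have hi0 : i = 0 := by
      by_contra hne
      have h4 : (X : K[X]) ∣ C y0 + y := (dvd_pow_self X hne).trans hi.symm.dvd
      have h5 : (C y0 + y).eval 0 = 0 := by
        obtain ⟨r, hr⟩ := h4
        rw [hr, eval_mul, eval_X, zero_mul]
      rw [eval_add, eval_C, h0] at h5
      have h3 : (2 : K) * y0 = 0 := by rw [two_mul]; exact h5
      rcases mul_eq_zero.mp h3 with h4 | h4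
      · exact two_ne_zero h4
      · exact hy0 h4
    rw [hi0, pow_zero] at hi
    have h6 : IsUnit (C y0 + y) := hi.symm.isUnit isUnit_one
    have h7 := natDegree_eq_zero_of_isUnit h6
    have h8 := ce_const h7
    have h9 : (C y0 + y).eval 0 = y0 + y0 := by rw [eval_add, eval_C, h0]
    rw [h9] at h8
    have h10 : y = C (y0 + y0) - C y0 := by
      rw [← h8]
      ring
    rw [h10, C_add]
    ring

theorem rigid {n k : ℕ} {D : ND K r} {m0 : GM r K} (h0 : OnG D k m0) {c : GM r K[X]} {γ : K}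
    (h : IsG D n k m0 c γ) (hy : m0.y ≠ 0) {i j : ℕ} (huv : m0.u.coeff i * m0.v.coeff j ≠ 0)
    (cq : ∀ i, (c.lam i).natDegree = 0) (cx : c.x.natDegree = 0) (cs : ∀ i, (c.s.coeff i).natDegree = 0)
    (ct : ∀ i, (c.t.coeff i).natDegree = 0) (cuv : ∀ i j, (c.u.coeff i * c.v.coeff j).natDegree = 0) : False := by
  have hat := h.at0
  have eq : ∀ i, (c.lam i).eval 0 = m0.lam i := by
    intro i
    rw [← hat]
    rfl
  have ex : c.x.eval 0 = m0.x := by rw [← hat]; rfl
  have ey : c.y.eval 0 = m0.y := by rw [← hat]; rfl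
  have es : c.s.map (evalRingHom 0) = m0.s := by rw [← hat]; rfl
  have et : c.t.map (evalRingHom 0) = m0.t := by rw [← hat]; rfl
  have eu : c.u.map (evalRingHom 0) = m0.u := by rw [← hat]; rfl
  have ev : c.v.map (evalRingHom 0) = m0.v := by rw [← hat]; rfl
  have hui : (c.u.coeff i).eval 0 = m0.u.coeff i := by
    rw [← eu, coeff_map, coe_evalRingHom]
  have hvj : (c.v.coeff j).eval 0 = m0.v.coeff j := by
    rw [← ev, coeff_map, coe_evalRingHom]
  have hu0 : c.u.coeff i ≠ 0 := by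
    intro h1
    rw [h1, eval_zero] at hui
    exact huv (by rw [← hui, zero_mul])
  have hv0 : c.v.coeff j ≠ 0 := by
    intro h1
    rw [h1, eval_zero] at hvj
    exact huv (by rw [← hvj, mul_zero])
  have hcv : ∀ j', (c.v.coeff j').natDegree = 0 := by
    intro j'
    by_cases h1 : c.v.coeff j' = 0
    · rw [h1, natDegree_zero]
    · have h2 := cuv i j'
      rw [natDegree_mul hu0 h1] at h2
      omega
  have hcu : ∀ i', (c.u.coeff i').natDegree = 0 := by
    intro i'
    by_cases h1 : c.u.coeff i' = 0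
    · rw [h1, natDegree_zero]
    · have h2 := cuv i' j
      rw [natDegree_mul h1 hv0] at h2
      omega
  have eq' : c.lam = m0.const.lam := by
    funext i
    rw [ce_const (cq i), eq i]
    rfl
  have et' : c.t = m0.const.t := ce_poly ct et
  have es' : c.s = m0.const.s := ce_poly cs es
  have eu' : c.u = m0.const.u := ce_poly hcu eu
  have ev' : c.v = m0.const.v := ce_poly hcv ev
  have ex' : c.x = m0.const.x := by
    rw [ce_const cx, ex]
    rfl
  have hr : c.rhs D = m0.const.rhs D := by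
    unfold GM.rhs
    rw [eq', et', ex']
  have hr2 : m0.const.rhs D = C (m0.rhs D) := rhs_map D m0 (Algebra.ofId K K[X])
  have hy2 : C (m0.y ^ 2) = c.y ^ 2 + C γ * X ^ (6 * n) := by
    rw [h0.eqy, ← hr2, ← hr, h.eqy]
  have ey' : c.y = m0.const.y := ce_y hy ey hy2
  exact h.ne (GM.ext eq' ex' ey' es' et' eu' ev')


variable [IsAlgClosed K]

/-- THE CURVE THEOREM with abstract norm data: `r` parameters for the tuple of base points, `n ≤ r` -/
theorem gcurve {D : ND K r} {n k : ℕ} (hD : D.Ok n k) (hn : 0 < n) (hk : 0 < k) (hr : n ≤ r)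
    {m0 : GM r K} (h0 : OnG D k m0) (hy : m0.y ≠ 0) {i j : ℕ} (huv : m0.u.coeff i * m0.v.coeff j ≠ 0) :
    ∃ (c : GM r K[X]) (γ : K) (M : Multiset (GM r (Om K))) (π0 π1 : Place K (Om K)), IsG D n k m0 c γ ∧ M ≠ 0 ∧
      (∀ m ∈ M, OnG D k m) ∧
      (∀ σ : Om K ≃ₐ[RatFunc K] Om K, M.map (GM.map (σ : Om K →+* Om K)) = M) ∧ (∀ m ∈ M, RdG π0 m m0) ∧
      (∀ m ∈ M, ¬ BddG π1 m) ∧ (∀ m ∈ M, ∃ x s : Om K, x ∉ π1.V ∧ m = gpt c x s) := by
  obtain ⟨c, γ, hc⟩ := exists_gcrv hD hn (by omega) hr h0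
  obtain ⟨π0, π1, hp0, hp1⟩ := places (K := K)
  have key : ∀ x s : Om K, x ∉ π1.V → ¬ BddG π1 (gpt c x s) := by
    intro x s hx hB
    refine rigid h0 hc hy huv (fun i' => ?_) ?_ (fun i' => ?_) (fun i' => ?_) (fun i' j' => ?_)
    · exact natDegree_of_mem hx (hB.lam i')
    · exact natDegree_of_mem hx hB.x
    · refine natDegree_of_mem hx ?_
      have h1 := hB.s i'
      have h2 : (gpt c x s).s.coeff i' = aeval x (c.s.coeff i') := coeff_map _ _
      rwa [h2] at h1
    · refine natDegree_of_mem hx ?_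
      have h1 := hB.t i'
      have h2 : (gpt c x s).t.coeff i' = aeval x (c.t.coeff i') := coeff_map _ _
      rwa [h2] at h1
    · refine natDegree_of_mem hx ?_
      have h1 := hB.uv i' j'
      have h2 : (gpt c x s).u.coeff i' = aeval x (c.u.coeff i') := coeff_map _ _
      have h3 : (gpt c x s).v.coeff j' = aeval x (c.v.coeff j') := coeff_map _ _
      rw [h2, h3, ← map_mul] at h1
      exact h1
  have hM : ∃ M : Multiset (GM r (Om K)), M ≠ 0 ∧ (∀ m ∈ M, OnG D k m) ∧
      (∀ σ : Om K ≃ₐ[RatFunc K] Om K, M.map (GM.map (σ : Om K →+* Om K)) = M) ∧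
      (∀ m ∈ M, RdG π0 m m0) ∧
      (∀ m ∈ M, ∃ x s : Om K, x ∉ π1.V ∧ m = gpt c x s) := by
    by_cases hγ : γ = 0
    · subst hγ
      exact pencil0 hc hp0 hp1
    · exact pencil1 hn hγ hc hp0 hp1
  obtain ⟨M, h1, h2, h3, h4, h5⟩ := hM
  refine ⟨c, γ, M, π0, π1, hc, h1, h2, h3, h4, fun m hm => ?_, h5⟩
  obtain ⟨x, s, hx, rfl⟩ := h5 m hm
  exact key x s hx


end H71.EG
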