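import Pool.Agent.H71.ES.CDef

/-! # EG.GDef : the model of unordered `k`-tuples over an arbitrary base curve, with abstract norm data (definitions only)

`lam_1, .., lam_r` are the parameters of the moving tuple of base points; `A = prod a(t_j)`, `B = prod b(t_j)` and
`N = prod (a(t_j)^3 (L+1)^2 - 4 b(t_j)^2 L)` are polynomials in them of total degree at most `4 n`, `6 n`, `12 n`.  A model point with values in a commutative
`K`-algebra `R` is `(lam, x, y, s, t, u, v)`; the conditions are those of `H71.ES.Mod`.  For the base `ℙ¹`: `r = k`, `q = X^k + sum lam_i X^i`. -/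

namespace H71.EG

open Polynomial H68.BB H71.ES

/-- abstract norm data in `r` parameters -/
structure ND (K : Type) [Field K] (r : ℕ) where
  A : MvPolynomial (Fin r) K
  B : MvPolynomial (Fin r) K
  N : (MvPolynomial (Fin r) K)[X]

/-- the conditions on the norm data -/
structure ND.Ok {K : Type} [Field K] {r : ℕ} (D : ND K r) (n k : ℕ) : Prop where
  dA : D.A.totalDegree ≤ 4 * n
  dB : D.B.totalDegree ≤ 6 * n
  dN : ∀ i, (D.N.coeff i).totalDegree ≤ 12 * n
  dg : D.N.natDegree ≤ 2 * k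
  pal : ∀ i ≤ 2 * k, D.N.coeff (2 * k - i) = D.N.coeff i
  ev : D.N.eval (-1) = (2 ^ k * D.B) ^ 2

/-- a model point with values in `R` -/
@[ext] structure GM (r : ℕ) (R : Type) [CommRing R] where
  lam : Fin r → R
  x : R
  y : R
  s : R[X]
  t : R[X]
  u : R[X]
  v : R[X]

/-- apply a ring homomorphism to a model point -/
noncomputable def GM.map {r : ℕ} {R S : Type} [CommRing R] [CommRing S] (f : R →+* S) (m : GM r R) : GM r S :=
  ⟨fun i => f (m.lam i), f m.x, f m.y, m.s.map f, m.t.map f, m.u.map f, m.v.map f⟩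

/-- forget the parameters -/
noncomputable def GM.md {r : ℕ} {R : Type} [CommRing R] (m : GM r R) : Mdl R := ⟨1, m.x, m.y, m.s, m.t, m.u, m.v⟩

variable {K : Type} [Field K] {r : ℕ}

section
variable {R : Type} [CommRing R] [Algebra K R]

/-- the value of `A` -/
noncomputable def ND.vA (D : ND K r) (l : Fin r → R) : R := MvPolynomial.aeval l D.A

/-- the value of `B` -/
noncomputable def ND.vB (D : ND K r) (l : Fin r → R) : R := MvPolynomial.aeval l D.B

/-- the value of `N` -/
noncomputable def ND.vN (D : ND K r) (l : Fin r → R) : R[X] :=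
  D.N.map ((MvPolynomial.aeval l : MvPolynomial (Fin r) K →ₐ[K] R) : MvPolynomial (Fin r) K →+* R)

/-- the defect of the determinant equation -/
noncomputable def dfD (D : ND K r) (m : GM r R) : R[X] := m.t ^ 2 + m.u * m.v - X * m.s ^ 2 - D.vN m.lam

/-- the defect of the equation `t(-1) = 2^k B` -/
noncomputable def dfT (D : ND K r) (k : ℕ) (m : GM r R) : R := m.t.eval (-1) - 2 ^ k * D.vB m.lam

/-- the right hand side of the equation of `y` -/
noncomputable def GM.rhs (D : ND K r) (m : GM r R) : R := m.x ^ 3 - 3 * D.vA m.lam * m.x - 2 * m.t.coeff 0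

/-- the defect of the equation of `y` -/
noncomputable def dfY (D : ND K r) (m : GM r R) : R := m.y ^ 2 - m.rhs D

/-- all conditions except the equation of `y` -/
structure OnG0 (D : ND K r) (k : ℕ) (m : GM r R) : Prop where
  pal : Pal k m.md
  det : dfD D m = 0
  tm1 : dfT D k m = 0

/-- the model point is on the model -/
structure OnG (D : ND K r) (k : ℕ) (m : GM r R) : Prop extends OnG0 D k m where
  eqy : m.y ^ 2 = m.rhs D

/-- the curve through `m0` with coefficients `z` (`X` is the parameter `τ`) -/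
noncomputable def gcrv (n k : ℕ) (m0 : GM r K) (z : Fin r ⊕ Fin (2 * n) ⊕ Fin (3 * n) ⊕ (Fin (6 * n) × UT k) → R) :
    GM r R[X] where
  lam i := algebraMap K R[X] (m0.lam i) + C (z (.inl i)) * X
  x := algebraMap K R[X] m0.x + ∑ j : Fin (2 * n), C (z (.inr (.inl j))) * X ^ ((j : ℕ) + 1)
  y := algebraMap K R[X] m0.y + ∑ j : Fin (3 * n), C (z (.inr (.inr (.inl j)))) * X ^ ((j : ℕ) + 1)
  t := m0.t.map (algebraMap K R[X]) + ∑ j : Fin (6 * n), C (X ^ ((j : ℕ) + 1)) *
    symp k ((-1) ^ k) (fun i => C (z (.inr (.inr (.inr (j, .inl i))))))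
  u := m0.u.map (algebraMap K R[X]) + ∑ j : Fin (6 * n), C (X ^ ((j : ℕ) + 1)) *
    symp k (-(-1) ^ k) (fun i => C (z (.inr (.inr (.inr (j, .inr (.inl i)))))))
  v := m0.v.map (algebraMap K R[X]) + ∑ j : Fin (6 * n), C (X ^ ((j : ℕ) + 1)) *
    symp k (-(-1) ^ k) (fun i => C (z (.inr (.inr (.inr (j, .inr (.inr (.inl i))))))))
  s := m0.s.map (algebraMap K R[X]) + ∑ j : Fin (6 * n), C (X ^ ((j : ℕ) + 1)) *
    symp (k - 1) ((-1) ^ k) (fun i => C (z (.inr (.inr (.inr (j, .inr (.inr (.inr i))))))))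

/-- the equations for the coefficients -/
noncomputable def geqn (D : ND K r) (n k : ℕ) (c : GM r R[X]) : EE n k → R
  | .inl (m, j) => ((dfD D c).coeff m).coeff (j + 1)
  | .inr (.inl j) => (dfT D k c).coeff (j + 1)
  | .inr (.inr j) => (dfY D c).coeff (j + 1)

end

/-- the constant curve -/
noncomputable def GM.const (m0 : GM r K) : GM r K[X] := m0.map (algebraMap K K[X])

/-- a nonconstant curve through `m0` on which all equations hold, that of `y` up to `γ τ^(6n)`, with `lam` linear in `τ` -/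
structure IsG (D : ND K r) (n k : ℕ) (m0 : GM r K) (c : GM r K[X]) (γ : K) : Prop where
  on : OnG0 D k c
  eqy : c.rhs D = c.y ^ 2 + C γ * X ^ (6 * n)
  at0 : c.map (evalRingHom 0) = m0
  dl : ∀ i, (c.lam i).natDegree ≤ 1
  dy : c.y.natDegree ≤ 3 * n
  ne : c ≠ m0.const

/-- the model point `m` reduces to `m'` at a place -/
structure RdG (π : Place K (Om K)) (m : GM r (Om K)) (m' : GM r K) : Prop where
  lam : ∀ i, Rd π.V π.φ (m.lam i) (m'.lam i)
  x : Rd π.V π.φ m.x m'.x
  y : Rd π.V π.φ m.y m'.y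
  s : ∀ i, Rd π.V π.φ (m.s.coeff i) (m'.s.coeff i)
  t : ∀ i, Rd π.V π.φ (m.t.coeff i) (m'.t.coeff i)
  u : ∀ i, Rd π.V π.φ (m.u.coeff i) (m'.u.coeff i)
  v : ∀ i, Rd π.V π.φ (m.v.coeff i) (m'.v.coeff i)

/-- the parameters and the invariants of the torus `u ↦ c u`, `v ↦ c⁻¹ v` are integral at a place -/
structure BddG (π : Place K (Om K)) (m : GM r (Om K)) : Prop where
  lam : ∀ i, m.lam i ∈ π.V
  x : m.x ∈ π.V
  y : m.y ∈ π.V
  s : ∀ i, m.s.coeff i ∈ π.V
  t : ∀ i, m.t.coeff i ∈ π.V
  uv : ∀ i j, m.u.coeff i * m.v.coeff j ∈ π.V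

end H71.EG
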