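import Pool.Agent.H71.EG.GMap

/-! # EG.GDet : half of the coefficients of the determinant equation suffice (copy of `ES.CDet`) -/

namespace H71.EG

open Polynomial H68.BB H71.ES

private theorem cd_refl {R : Type} [CommRing R] {d : ℕ} {e : R} {p : R[X]}
    (hd : p.natDegree ≤ d) (hp : ∀ i ≤ d, p.coeff (d - i) = e * p.coeff i) :
    p.reflect d = C e * p := by
  ext i
  rw [coeff_reflect, coeff_C_mul]
  by_cases hi : i ≤ d
  · rw [revAt_le hi]
    exact hp i hi
  · rw [revAt_eq_self_of_lt (by omega)]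
    rw [coeff_eq_zero_of_natDegree_lt (by omega), mul_zero]

private theorem cd_eval {R : Type} [CommRing R] (d : ℕ) (p : R[X]) (hd : p.natDegree ≤ d) :
    (p.reflect d).eval (-1) * (-1) ^ d = p.eval (-1) := by
  let inv : Invertible (-1 : R) := ⟨-1, by ring, by ring⟩
  have h := @eval₂_reflect_mul_pow R _ R _ (RingHom.id R) (-1) inv d p hd
  exact h

variable {K : Type} [Field K] {r : ℕ} {R : Type} [CommRing R] [IsDomain R] [CharZero R] [Algebra K R]

theorem det_of_half {D : ND K r} {n k : ℕ} (hD : D.Ok n k) (hk : 0 < k) {m : GM r R} (hp : Pal k m.md)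
    (hT : dfT D k m = 0) (h : ∀ i < k, (dfD D m).coeff i = 0) : dfD D m = 0 := by
  have hsq : ((-1 : R) ^ k) * (-1) ^ k = 1 := by
    rw [← mul_pow]
    simp
  have dt : m.t.natDegree ≤ k := hp.dt
  have du : m.u.natDegree ≤ k := hp.du
  have dv : m.v.natDegree ≤ k := hp.dv
  have ds : m.s.natDegree ≤ k - 1 := hp.ds
  have rt := cd_refl dt hp.pt
  have ru := cd_refl du hp.pu
  have rv := cd_refl dv hp.pv
  have rs := cd_refl ds hp.ps
  have hNd : (D.vN m.lam).natDegree ≤ 2 * k := natDegree_map_le.trans hD.dg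
  have rN : (D.vN m.lam).reflect (2 * k) = D.vN m.lam := by
    have h1 := cd_refl (e := (1 : R)) hNd (fun i hi => by
      rw [one_mul]
      unfold ND.vN
      rw [coeff_map, coeff_map, hD.pal i hi])
    rwa [C_1, one_mul] at h1
  have r1 : (m.t ^ 2).reflect (2 * k) = m.t ^ 2 := by
    rw [two_mul, pow_two, reflect_mul _ _ dt dt, rt]
    have : C ((-1 : R) ^ k) * m.t * (C ((-1 : R) ^ k) * m.t) =
        C (((-1 : R) ^ k) * (-1) ^ k) * (m.t * m.t) := by
      rw [C_mul]
      ring
    rw [this, hsq, C_1, one_mul]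
  have r2 : (m.u * m.v).reflect (2 * k) = m.u * m.v := by
    rw [two_mul, reflect_mul _ _ du dv, ru, rv]
    have : C (-(-1 : R) ^ k) * m.u * (C (-(-1 : R) ^ k) * m.v) =
        C (((-1 : R) ^ k) * (-1) ^ k) * (m.u * m.v) := by
      rw [C_mul, C_neg]
      ring
    rw [this, hsq, C_1, one_mul]
  have hss : (m.s ^ 2).natDegree ≤ (k - 1) + (k - 1) := by
    rw [pow_two]
    exact natDegree_mul_le.trans (Nat.add_le_add ds ds)
  have hX : (X : R[X]).natDegree ≤ 2 := natDegree_X_le.trans (by norm_num)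
  have hXr : (X : R[X]).reflect 2 = X := by
    have h1 := cd_refl (e := (1 : R)) hX (fun i hi => by
      interval_cases i <;> simp [coeff_X])
    rwa [C_1, one_mul] at h1
  have e2 : 2 * k = 2 + ((k - 1) + (k - 1)) := by omega
  have r3 : (X * m.s ^ 2).reflect (2 * k) = X * m.s ^ 2 := by
    rw [e2, reflect_mul _ _ hX hss, hXr, pow_two, reflect_mul _ _ ds ds, rs]
    have : C ((-1 : R) ^ k) * m.s * (C ((-1 : R) ^ k) * m.s) =
        C (((-1 : R) ^ k) * (-1) ^ k) * (m.s * m.s) := by
      rw [C_mul]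
      ring
    rw [this, hsq, C_1, one_mul]
  have rD : (dfD D m).reflect (2 * k) = dfD D m := by
    unfold dfD
    rw [reflect_sub, reflect_sub, reflect_add, r1, r2, r3, rN]
  have hDd : (dfD D m).natDegree ≤ 2 * k := by
    unfold dfD
    have d1 : (m.t ^ 2).natDegree ≤ 2 * k := by
      rw [two_mul, pow_two]
      exact natDegree_mul_le.trans (Nat.add_le_add dt dt)
    have d2 : (m.u * m.v).natDegree ≤ 2 * k := by
      rw [two_mul]
      exact natDegree_mul_le.trans (Nat.add_le_add du dv)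
    have d3 : (X * m.s ^ 2).natDegree ≤ 2 * k := by
      rw [e2]
      exact natDegree_mul_le.trans (Nat.add_le_add hX hss)
    have d4 : (m.t ^ 2 + m.u * m.v).natDegree ≤ 2 * k := natDegree_add_le_of_degree_le d1 d2
    have d5 : (m.t ^ 2 + m.u * m.v - X * m.s ^ 2).natDegree ≤ 2 * k :=
      (natDegree_sub_le _ _).trans (max_le d4 d3)
    exact (natDegree_sub_le _ _).trans (max_le d5 hNd)
  have hz : ∀ i, i ≠ k → (dfD D m).coeff i = 0 := by
    intro i hi
    rcases Nat.lt_or_gt_of_ne hi with hlt | hgt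
    · exact h i hlt
    · by_cases hi2 : i ≤ 2 * k
      · rw [← rD, coeff_reflect, revAt_le hi2]
        exact h (2 * k - i) (by omega)
      · exact coeff_eq_zero_of_natDegree_lt (by omega)
  have hmon : dfD D m = C ((dfD D m).coeff k) * X ^ k := by
    ext i
    rw [coeff_C_mul_X_pow]
    split_ifs with hi
    · rw [hi]
    · exact hz i hi
  have two : (2 : R) ≠ 0 := two_ne_zero
  have hu : m.u.eval (-1) = 0 := by
    have h1 := cd_eval k m.u du
    rw [ru, eval_mul, eval_C] at h1
    have h2 : -(-1 : R) ^ k * m.u.eval (-1) * (-1) ^ k =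
        -(((-1 : R) ^ k * (-1) ^ k) * m.u.eval (-1)) := by ring
    rw [h2, hsq, one_mul] at h1
    have h3 : (2 : R) * m.u.eval (-1) = 0 := by linear_combination -h1
    exact (mul_eq_zero.mp h3).resolve_left two
  have hs : m.s.eval (-1) = 0 := by
    have h1 := cd_eval (k - 1) m.s ds
    rw [rs, eval_mul, eval_C] at h1
    have h4 : (-1 : R) ^ k = (-1) ^ (k - 1) * (-1) := by
      rw [← pow_succ]
      congr 1
      omega
    have h5 : (-1 : R) ^ (k - 1) * (-1) ^ (k - 1) = 1 := by
      rw [← mul_pow]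
      simp
    have h2 : (-1 : R) ^ k * m.s.eval (-1) * (-1) ^ (k - 1) =
        -(((-1 : R) ^ (k - 1) * (-1) ^ (k - 1)) * m.s.eval (-1)) := by
      rw [h4]
      ring
    rw [h2, h5, one_mul] at h1
    have h3 : (2 : R) * m.s.eval (-1) = 0 := by linear_combination -h1
    exact (mul_eq_zero.mp h3).resolve_left two
  have ht : m.t.eval (-1) = 2 ^ k * D.vB m.lam := by
    unfold dfT at hT
    exact sub_eq_zero.mp hT
  have hNe : (D.vN m.lam).eval (-1) = (2 ^ k * D.vB m.lam) ^ 2 := by
    have h1 : (D.vN m.lam).eval (-1) =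
        ((MvPolynomial.aeval m.lam : MvPolynomial (Fin r) K →ₐ[K] R) : MvPolynomial (Fin r) K →+* R) (D.N.eval (-1)) := by
      unfold ND.vN
      rw [← eval_map_apply]
      simp
    rw [h1, hD.ev]
    simp [ND.vB, map_ofNat]
  have hE : (dfD D m).eval (-1) = 0 := by
    unfold dfD
    rw [eval_sub, eval_sub, eval_add, eval_pow, eval_mul, eval_mul, eval_pow, hu, hs, ht, hNe]
    ring
  have hE2 : (dfD D m).coeff k * (-1) ^ k = 0 := by
    rw [hmon, eval_mul, eval_C, eval_pow, eval_X] at hE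
    exact hE
  have hne : ((-1 : R) ^ k) ≠ 0 := pow_ne_zero _ (by simp)
  have hc : (dfD D m).coeff k = 0 := (mul_eq_zero.mp hE2).resolve_right hne
  rw [hmon, hc, C_0, zero_mul]


end H71.EG
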