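import Pool.Agent.H71.EG.GDef
import Pool.Agent.H71.ES.CMap

/-! # EG.GMap : the equations are stable under base change -/

namespace H71.EG

open Polynomial H68.BB H71.ES

variable {K : Type} [Field K] {r : ℕ} {R S : Type} [CommRing R] [CommRing S] [Algebra K R] [Algebra K S]

theorem vA_map (D : ND K r) (l : Fin r → R) (f : R →ₐ[K] S) : D.vA (fun i => f (l i)) = f (D.vA l) := by
  unfold ND.vA
  rw [← MvPolynomial.comp_aeval_apply]

theorem vB_map (D : ND K r) (l : Fin r → R) (f : R →ₐ[K] S) : D.vB (fun i => f (l i)) = f (D.vB l) := by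
  unfold ND.vB
  rw [← MvPolynomial.comp_aeval_apply]

theorem vN_map (D : ND K r) (l : Fin r → R) (f : R →ₐ[K] S) : D.vN (fun i => f (l i)) = (D.vN l).map (f : R →+* S) := by
  unfold ND.vN
  rw [Polynomial.map_map]
  congr 1
  refine RingHom.ext fun p => ?_
  show MvPolynomial.aeval (fun i => f (l i)) p = f (MvPolynomial.aeval l p)
  rw [← MvPolynomial.comp_aeval_apply]

theorem md_map (m : GM r R) (f : R →+* S) : (m.map f).md = m.md.map f := by
  simp [GM.md, GM.map, Mdl.map]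

theorem dfD_map (D : ND K r) (m : GM r R) (f : R →ₐ[K] S) :
    dfD D (m.map (f : R →+* S)) = (dfD D m).map (f : R →+* S) := by
  show (m.t.map (f : R →+* S)) ^ 2 + m.u.map (f : R →+* S) * m.v.map (f : R →+* S) -
      X * (m.s.map (f : R →+* S)) ^ 2 - D.vN (fun i => f (m.lam i)) =
    (m.t ^ 2 + m.u * m.v - X * m.s ^ 2 - D.vN m.lam).map (f : R →+* S)
  rw [vN_map]
  simp

theorem dfT_map (D : ND K r) {k : ℕ} (m : GM r R) (f : R →ₐ[K] S) :
    dfT D k (m.map (f : R →+* S)) = f (dfT D k m) := by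
  show (m.t.map (f : R →+* S)).eval (-1) - 2 ^ k * D.vB (fun i => f (m.lam i)) =
    f (m.t.eval (-1) - 2 ^ k * D.vB m.lam)
  have h1 : (m.t.map (f : R →+* S)).eval (-1) = (f : R →+* S) (m.t.eval (-1)) := by
    rw [← eval_map_apply]
    simp
  rw [vB_map, h1]
  simp [map_ofNat]

theorem rhs_map (D : ND K r) (m : GM r R) (f : R →ₐ[K] S) :
    (m.map (f : R →+* S)).rhs D = f (m.rhs D) := by
  show (f m.x) ^ 3 - 3 * D.vA (fun i => f (m.lam i)) * (f m.x) -
    2 * (m.t.map (f : R →+* S)).coeff 0 = f (m.x ^ 3 - 3 * D.vA m.lam * m.x - 2 * m.t.coeff 0)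
  rw [vA_map, coeff_map]
  simp [map_ofNat]

theorem dfY_map (D : ND K r) (m : GM r R) (f : R →ₐ[K] S) :
    dfY D (m.map (f : R →+* S)) = f (dfY D m) := by
  show (f m.y) ^ 2 - (m.map (f : R →+* S)).rhs D = f (m.y ^ 2 - m.rhs D)
  rw [rhs_map]
  simp

theorem OnG0.map {D : ND K r} {k : ℕ} {m : GM r R} (h : OnG0 D k m) (f : R →ₐ[K] S) :
    OnG0 D k (m.map (f : R →+* S)) where
  pal := by
    rw [md_map]
    exact h.pal.map _
  det := by rw [dfD_map, h.det, Polynomial.map_zero]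
  tm1 := by rw [dfT_map, h.tm1, map_zero]

theorem OnG.map {D : ND K r} {k : ℕ} {m : GM r R} (h : OnG D k m) (f : R →ₐ[K] S) :
    OnG D k (m.map (f : R →+* S)) where
  toOnG0 := h.toOnG0.map f
  eqy := by
    rw [rhs_map, ← h.eqy]
    show (f m.y) ^ 2 = f (m.y ^ 2)
    rw [map_pow]

theorem gmap_map {T : Type} [CommRing T] (m : GM r R) (f : R →+* S) (g : S →+* T) : (m.map f).map g = m.map (g.comp f) := by
  simp only [GM.map, Polynomial.map_map, RingHom.comp_apply]

end H71.EG
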