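import Pool.Agent.H71.EG.GCrv
import Pool.Agent.H71.EG.GDet
import Pool.Agent.H71.ES.CKru

/-! # EG.GSol : the curve exists -/

namespace H71.EG

open Polynomial H68.BB H71.ES

variable {K : Type} [Field K] {r : ℕ}

theorem gcard_lt {n k : ℕ} (hn : 0 < n) (hr : n ≤ r) : Fintype.card (EE n k) < Fintype.card (GU r n k) := by
  have h1 : Fintype.card (EE n k) = k * (12 * n) + (6 * n + (6 * n - 1)) := by
    simp only [EE, Fintype.card_sum, Fintype.card_prod, Fintype.card_fin]
  have h2 : Fintype.card (GU r n k) = r + (2 * n + (3 * n + 6 * n * (2 * k + 1))) := by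
    simp only [GU, UT, Fintype.card_sum, Fintype.card_prod, Fintype.card_fin]
    have : k / 2 + 1 + ((k + 1) / 2 + ((k + 1) / 2 + k / 2)) = 2 * k + 1 := by omega
    rw [this]
  rw [h1, h2]
  have h3 : 6 * n * (2 * k + 1) = k * (12 * n) + 6 * n := by ring
  rw [h3]
  omega

/-- the constant curve satisfies the equations -/
theorem geqn_zero {D : ND K r} {n k : ℕ} {m0 : GM r K} (h : OnG D k m0) (e : EE n k) :
    geqn D n k (gcrv n k m0 (fun _ => (0 : K))) e = 0 := by
  have hc : gcrv n k m0 (fun _ => (0 : K)) = m0.map ((Algebra.ofId K K[X] : K →ₐ[K] K[X]) : K →+* K[X]) := by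
    refine GM.ext ?_ ?_ ?_ ?_ ?_ ?_ ?_
    · funext i
      simp [gcrv, GM.map]
    · simp [gcrv, GM.map]
    · simp [gcrv, GM.map]
    · simp [gcrv, GM.map, symp]
    · simp [gcrv, GM.map, symp]
    · simp [gcrv, GM.map, symp]
    · simp [gcrv, GM.map, symp]
  rw [hc]
  have hy : dfY D m0 = 0 := by
    unfold dfY
    rw [h.eqy, sub_self]
  rcases e with ⟨m, j⟩ | j | j
  · have h1 : geqn D n k (m0.map ((Algebra.ofId K K[X] : K →ₐ[K] K[X]) : K →+* K[X])) (.inl (m, j)) =
      ((dfD D (m0.map ((Algebra.ofId K K[X] : K →ₐ[K] K[X]) : K →+* K[X]))).coeff m).coeff (j + 1) := rfl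
    rw [h1, dfD_map, h.det, Polynomial.map_zero, coeff_zero, coeff_zero]
  · have h1 : geqn D n k (m0.map ((Algebra.ofId K K[X] : K →ₐ[K] K[X]) : K →+* K[X])) (.inr (.inl j)) =
      (dfT D k (m0.map ((Algebra.ofId K K[X] : K →ₐ[K] K[X]) : K →+* K[X]))).coeff (j + 1) := rfl
    rw [h1, dfT_map, h.tm1, map_zero, coeff_zero]
  · have h1 : geqn D n k (m0.map ((Algebra.ofId K K[X] : K →ₐ[K] K[X]) : K →+* K[X])) (.inr (.inr j)) =
      (dfY D (m0.map ((Algebra.ofId K K[X] : K →ₐ[K] K[X]) : K →+* K[X]))).coeff (j + 1) := rfl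
    rw [h1, dfY_map, hy, map_zero, coeff_zero]

variable [IsAlgClosed K] [CharZero K]

omit [IsAlgClosed K] [CharZero K] in
private theorem zero_of_coeff {p : K[X]} {d : ℕ} (hd : p.natDegree ≤ d) (h0 : p.eval 0 = 0)
    (h : ∀ j : Fin d, p.coeff (j + 1) = 0) : p = 0 := by
  ext i
  rw [coeff_zero]
  rcases i with _ | i
  · rw [coeff_zero_eq_eval_zero, h0]
  · by_cases hi : i < d
    · exact h ⟨i, hi⟩
    · exact coeff_eq_zero_of_natDegree_lt (by omega)

theorem exists_gcrv {D : ND K r} {n k : ℕ} (hD : D.Ok n k) (hn : 0 < n) (hk : 0 < k) (hr : n ≤ r)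
    {m0 : GM r K} (h0 : OnG D k m0) : ∃ (c : GM r K[X]) (γ : K), IsG D n k m0 c γ := by
  let zX : GU r n k → MvPolynomial (GU r n k) K := fun i => MvPolynomial.X i
  have hev : ∀ (u : GU r n k → K) (e : EE n k),
      MvPolynomial.eval u (geqn D n k (gcrv n k m0 zX) e) = geqn D n k (gcrv n k m0 u) e := by
    intro u e
    have h1 := geqn_nat (D := D) m0 zX (MvPolynomial.aeval u : MvPolynomial (GU r n k) K →ₐ[K] K) e
    have h2 : (fun i => (MvPolynomial.aeval u : MvPolynomial (GU r n k) K →ₐ[K] K) (zX i)) = u := by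
      funext i
      exact MvPolynomial.aeval_X u i
    rw [h2] at h1
    rw [h1]
    rfl
  obtain ⟨u, hu, hg⟩ := krull' (gcard_lt (k := k) hn hr) (fun e => geqn D n k (gcrv n k m0 zX) e) (by
    intro e
    rw [hev]
    exact geqn_zero h0 e)
  set c := gcrv n k m0 u with hc
  have heq : ∀ e, geqn D n k c e = 0 := by
    intro e
    rw [hc, ← hev]
    exact hg e
  have hat : c.map (evalRingHom 0) = m0 := by
    rw [hc, gcrv_at0]
    refine GM.ext ?_ ?_ ?_ ?_ ?_ ?_ ?_ <;> simp [GM.map]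
  have hat' : c.map ((aeval (0 : K) : K[X] →ₐ[K] K) : K[X] →+* K) = m0 := by
    have h1 : ((aeval (0 : K) : K[X] →ₐ[K] K) : K[X] →+* K) = evalRingHom 0 := by
      ext <;> simp
    rw [h1, hat]
  have hT : dfT D k c = 0 := by
    refine zero_of_coeff (dfT_tdeg hD m0 u) ?_ (fun j => heq (.inr (.inl j)))
    have h1 := dfT_map (k := k) D c (aeval (0 : K) : K[X] →ₐ[K] K)
    rw [hat', h0.tm1] at h1
    exact h1.symm
  have hDm : ∀ i < k, (dfD D c).coeff i = 0 := by
    intro i hi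
    refine zero_of_coeff (dfD_tdeg hD m0 u i) ?_ (fun j => heq (.inl (⟨i, hi⟩, j)))
    have h1 := dfD_map D c (aeval (0 : K) : K[X] →ₐ[K] K)
    rw [hat', h0.det] at h1
    have h2 := congrArg (fun p : K[X] => p.coeff i) h1
    simp only [coeff_zero, coeff_map] at h2
    exact h2.symm
  have hpal : Pal k c.md := gcrv_pal h0.pal u
  have hDD : dfD D c = 0 := det_of_half hD hk hpal hT hDm
  have hYd := dfY_tdeg hD m0 u
  rw [← hc] at hYd
  have hY0 : (dfY D c).coeff 0 = 0 := by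
    rw [coeff_zero_eq_eval_zero]
    have h1 := dfY_map D c (aeval (0 : K) : K[X] →ₐ[K] K)
    rw [hat'] at h1
    have h2 : dfY D m0 = 0 := by
      unfold dfY
      rw [h0.eqy, sub_self]
    rw [h2] at h1
    exact h1.symm
  have hY : dfY D c = C ((dfY D c).coeff (6 * n)) * X ^ (6 * n) := by
    ext i
    rw [coeff_C_mul_X_pow]
    split_ifs with hi
    · rw [hi]
    · rcases i with _ | i
      · exact hY0
      · by_cases hi2 : i < 6 * n - 1
        · exact heq (.inr (.inr ⟨i, hi2⟩))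
        · exact coeff_eq_zero_of_natDegree_lt (by omega)
  refine ⟨c, -(dfY D c).coeff (6 * n), ⟨hpal, hDD, hT⟩, ?_, hat, gcrv_lam_deg m0 u, gcrv_y_deg m0 u, ?_⟩
  · have h1 : c.rhs D = c.y ^ 2 - dfY D c := by
      unfold dfY
      ring
    rw [h1, hY]
    simp only [coeff_C_mul_X_pow, if_true, C_neg]
    ring
  · intro hcon
    exact hu (gcrv_inj m0 u hcon)

end H71.EG
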